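import Pool.Agent.H73.G.RA.NH23.Pair

/-!
# `j (τ_i)` for algebraic functions `τ_i`
-/

set_option autoImplicit false

open Filter Topology MvPolynomial

noncomputable section

namespace Pool.Agent.NH23.Tup

open Pool.Agent.Y685 Pool.Agent.Y776 Pool.Agent.Y776.AxJ
open Pool.Agent.Y776.Fam (AlgOver)
open Pool.Agent.Y776.Cv (FInd)
open Pool.Agent.NH23.Pair

/-- subfamilies of independent families -/
theorem loc_comp {κ κ' : Type} {y : κ → ℂ → ℂ} (e : κ' → κ) (he : Function.Injective e) {t : ℂ}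
    (h : Pool.Agent.Y124.LocInd y t) : Pool.Agent.Y124.LocInd (fun k => y (e k)) t := by
  intro P hP
  have h2 : ∀ᶠ t in 𝓝 t, MvPolynomial.eval (fun o : Option κ => o.elim t
      fun k => y k t) (MvPolynomial.rename (Option.map e) P) = 0 := by
    filter_upwards [hP] with t ht
    rw [MvPolynomial.eval_rename]
    rw [← ht]
    congr 2
    funext o
    rcases o with _ | k <;> rfl
  have h3 := h _ h2
  exact (MvPolynomial.rename_injective _ (Option.map_injective he)) (by rw [h3, map_zero])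

variable {U : Set ℂ} {n : ℕ} {τ : Fin n → ℂ → ℂ}

/-- a tuple of algebraic functions -/
structure Tpl (U : Set ℂ) (τ : Fin n → ℂ → ℂ) : Prop where
  op : IsOpen U
  conn : IsPreconnected U
  ne : U.Nonempty
  an : ∀ i, AnalyticOnNhd ℂ (τ i) U
  im : ∀ i, ∀ z ∈ U, 0 < (τ i z).im
  nc : ∀ i c, ∃ z ∈ U, τ i z ≠ c
  alg : ∀ i, Alg U (τ i)
  inc : ∀ i k, i ≠ k → ∀ a b c d : ℚ, 0 < a * d - b * c →
    ∃ z ∈ U, τ k z * (c * τ i z + d) ≠ a * τ i z + b

theorem Tpl.two (h : Tpl U τ) (i k : Fin n) : TwoA U (fun m : Fin 2 => τ (![i, k] m)) where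
  op := h.op
  conn := h.conn
  ne := h.ne
  an := fun _ => h.an _
  im := fun _ => h.im _
  nc := fun _ => h.nc _
  alg := fun _ => h.alg _

theorem Tpl.fmj (h : Tpl U τ) : Fmj U τ (fun k : Fin 0 => k.elim0) where
  op := h.op
  conn := h.conn
  ne := h.ne
  ta := h.an
  im := h.im
  nc := h.nc
  ji := fun i k hik => (h.two i k).jind (h.inc i k hik)
  wa := fun k => k.elim0
  wi := fun _ _ _ => Subsingleton.elim _ _

end Pool.Agent.NH23.Tup
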