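import Pool.Agent.H73.G.RA.NH23.Core

/-!
# Relations extend to a neighbourhood
-/

set_option autoImplicit false

open Filter Topology MvPolynomial UpperHalfPlane

noncomputable section

namespace Pool.Agent.NH23.Core

open Pool.Agent.NH23.Qua
open Pool.Agent.NH23.CM (vl cm_main liou_main)
open Pool.Agent.NH23.An (eq_zero_of_small)
open Pool.Agent.NH23.Inj (jf_eq)
open H294ZP (jj)
open Pool.Agent.Y776 (jf)

variable {m n : ℕ} {ξ : Fin m → ℝ} {A B C : Fin n → MvPolynomial (Fin m) ℤ} {z : Fin n → ℂ}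

/-- bounds near the point -/
theorem ev_bd (ξ : Fin m → ℝ) (A : MvPolynomial (Fin m) ℤ) : ∀ᶠ x in 𝓝 (cx ξ), ‖(aeval x A : ℂ)‖ ≤ ‖(aeval (cx ξ) A : ℂ)‖ + 1 := by
  have h := (an_poly A (cx ξ)).continuousAt.norm
  filter_upwards [h.tendsto.eventually (gt_mem_nhds (lt_add_one _))] with x hx
  exact hx.le

theorem sq_le_two {k : ℕ} (hk : 4 ≤ k) : k * k ≤ 2 ^ k := by
  induction k, hk using Nat.le_induction with
  | base => norm_num
  | succ k hk ih =>
    rw [pow_succ]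
    nlinarith

theorem core1 (hξ : Hc ξ) (h : Qd ξ A B C z) (F : MvPolynomial (Fin m ⊕ Fin n) ℤ)
    (h0 : Ff A B C F (cx ξ) = 0) : Ff A B C F =ᶠ[𝓝 (cx ξ)] 0 := by
  classical
  choose q p hq hp hh using hξ
  set a : ℕ → Fin m → ℝ := fun k i => (p k i : ℝ) / q k with ha
  have hqr : ∀ k, (2 : ℝ) ≤ q k := fun k => by exact_mod_cast hq k
  have hqk : ∀ k : ℕ, (k : ℝ) ≤ (q k : ℝ) ^ k := by
    intro k
    have h1 : ((2 : ℕ) : ℝ) ^ k ≤ (q k : ℝ) ^ k := pow_le_pow_left₀ (by norm_num) (by exact_mod_cast hq k) _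
    have h2 : (k : ℝ) ≤ ((2 : ℕ) : ℝ) ^ k := by exact_mod_cast (Nat.lt_two_pow_self (n := k)).le
    linarith
  -- the points tend to `ξ`
  have hsm : ∀ k i, |ξ i - a k i| ≤ Real.exp (-(k : ℝ)) := fun k i =>
    (hp k i).2.trans (Real.exp_le_exp.2 (neg_le_neg (hqk k)))
  have hexp : Tendsto (fun k : ℕ => Real.exp (-(k : ℝ))) atTop (𝓝 0) :=
    Real.tendsto_exp_neg_atTop_nhds_zero.comp tendsto_natCast_atTop_atTop
  have hnorm : ∀ k i, ‖cx (a k) i - cx ξ i‖ = |ξ i - a k i| := by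
    intro k i
    rw [cx, cx, ← Complex.ofReal_sub, Complex.norm_real, Real.norm_eq_abs, abs_sub_comm]
  have ht : Tendsto (fun k => cx (a k)) atTop (𝓝 (cx ξ)) := by
    rw [tendsto_pi_nhds]
    intro i
    rw [tendsto_iff_norm_sub_tendsto_zero]
    refine squeeze_zero (fun _ => norm_nonneg _) (fun k => ?_) hexp
    rw [hnorm]
    exact hsm k i
  -- analyticity and the Lipschitz bound
  have hev := h.ev
  have hself := hev.self_of_nhds
  have hF : AnalyticAt ℂ (Ff A B C F) (cx ξ) :=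
    an_Ff (fun i => (hself i).1) (fun i => (hself i).2.1) (fun i => (hself i).2.2) F
  obtain ⟨L, hL⟩ := hF.differentiableAt.hasFDerivAt.isBigO_sub.bound
  -- the values vanish
  have hz : ∀ᶠ k in atTop, Ff A B C F (cx (a k)) = 0 := by
    set M : ℝ := (∑ i, (‖(aeval (cx ξ) (A i) : ℂ)‖ + ‖(aeval (cx ξ) (B i) : ℂ)‖ + ‖(aeval (cx ξ) (C i) : ℂ)‖)) + 1 with hM
    have hMi : ∀ i, ‖(aeval (cx ξ) (A i) : ℂ)‖ + ‖(aeval (cx ξ) (B i) : ℂ)‖ + ‖(aeval (cx ξ) (C i) : ℂ)‖ + 1 ≤ M := by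
      intro i
      have := Finset.single_le_sum (f := fun i => ‖(aeval (cx ξ) (A i) : ℂ)‖ + ‖(aeval (cx ξ) (B i) : ℂ)‖ +
        ‖(aeval (cx ξ) (C i) : ℂ)‖) (fun _ _ => by positivity) (Finset.mem_univ i)
      linarith
    obtain ⟨k₁, hk₁⟩ := pow_unbounded_of_one_lt M (one_lt_two)
    obtain ⟨C₀, hC₀⟩ := cm_main
    set c' := dg A B C + k₁ + 1 with hc'
    set R : ℝ := (∑ i, |ξ i|) + 1 with hR
    obtain ⟨C₁, hC₁⟩ := liou_main F R (c' * C₀)
    have hL0 : 0 ≤ |L| + 1 := by positivity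
    obtain ⟨k₂, hk₂⟩ := pow_unbounded_of_one_lt (Real.log (|L| + 1) + 2) (one_lt_two)
    have hA1 : ∀ᶠ x in 𝓝 (cx ξ), ∀ i, ‖(aeval x (A i) : ℂ)‖ ≤ M ∧ ‖(aeval x (B i) : ℂ)‖ ≤ M ∧
        ‖(aeval x (C i) : ℂ)‖ ≤ M := by
      rw [eventually_all]
      intro i
      filter_upwards [ev_bd ξ (A i), ev_bd ξ (B i), ev_bd ξ (C i)] with x h1 h2 h3
      have := hMi i
      have n1 := norm_nonneg (aeval (cx ξ) (A i) : ℂ)
      have n2 := norm_nonneg (aeval (cx ξ) (B i) : ℂ)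
      have n3 := norm_nonneg (aeval (cx ξ) (C i) : ℂ)
      exact ⟨by linarith, by linarith, by linarith⟩
    filter_upwards [ht.eventually hev, ht.eventually hA1, ht.eventually hL, eventually_ge_atTop (C₁ + k₂)] with
      k e1 e2 e3 e4
    by_contra hne
    have hav : ∀ D : MvPolynomial (Fin m) ℤ, ‖(aeval (cx (a k)) D : ℂ)‖ = |aeval (a k) D| := by
      intro D
      rw [aeval_cx, Complex.norm_real, Real.norm_eq_abs]
    have hre : ∀ i, 0 < aeval (a k) (A i) := by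
      intro i
      have := (e1 i).1
      rwa [aeval_cx, Complex.ofReal_re] at this
    set y : Fin n → ℂ := fun i => jf (Tf (A i) (B i) (C i) (cx (a k))) with hy
    set H : ℕ := q k ^ c' with hH
    have hH2 : 2 ≤ H := (hq k).trans (Nat.le_self_pow (by omega) _)
    have hcm : ∀ i, IsIntegral ℤ (y i) ∧ (minpoly ℚ (y i)).natDegree ≤ H ^ C₀ ∧
        ∀ x : ℂ, Polynomial.aeval x (minpoly ℚ (y i)) = 0 → ‖x‖ ≤ Real.exp ((H : ℝ) ^ C₀) := by
      intro i
      obtain ⟨u, v, w, hu0, hu, hv, hw, hroot⟩ := val_pt (A := A) (B := B) (C := C) (hk₁.le) (hq k) (p := p k) (a := a k) rfl i (hre i)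
        (by rw [← hav]; exact (e2 i).1) (by rw [← hav]; exact (e2 i).2.1) (by rw [← hav]; exact (e2 i).2.2) (e1 i).2.2
      have hyi : y i = jj ⟨_, (e1 i).2.2⟩ := jf_eq (e1 i).2.2
      rw [hyi]
      exact hC₀ H hH2 ⟨_, (e1 i).2.2⟩ u v w hu0 hu hv hw hroot
    have hvl : vl F (q k) (p k) y = Ff A B C F (cx (a k)) := by
      rw [vl, Ff]
      congr 2
      congr 1
      funext i
      simp [cx, ha]
    have hHr : (H : ℝ) ^ C₀ = (q k : ℝ) ^ (c' * C₀) := by
      rw [hH]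
      push_cast
      rw [← pow_mul]
    have hHn : H ^ C₀ = q k ^ (c' * C₀) := by
      rw [hH, ← pow_mul]
    have hlow := hC₁ (q k) (hq k) (p k) (fun i => by
      have h1 := hsm k i
      have h2 : Real.exp (-(k : ℝ)) ≤ 1 := Real.exp_le_one_iff.2 (by simp)
      have h3 : |ξ i| ≤ ∑ i, |ξ i| := Finset.single_le_sum (f := fun i => |ξ i|) (fun _ _ => abs_nonneg _) (Finset.mem_univ i)
      have h4 : |a k i| ≤ |ξ i| + |ξ i - a k i| := by
        have := abs_sub_abs_le_abs_sub (a k i) (ξ i)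
        rw [abs_sub_comm (a k i)] at this
        linarith
      show |a k i| ≤ R
      linarith) y (fun j => (hcm j).1) (fun j => (hcm j).2.1.trans hHn.le) (fun j x hx => by
      rw [← hHr]
      exact (hcm j).2.2 x hx) (by rw [hvl]; exact hne)
    rw [hvl] at hlow
    rw [h0, sub_zero] at e3
    have hup : ‖cx (a k) - cx ξ‖ ≤ Real.exp (-(q k : ℝ) ^ k) := by
      rw [pi_norm_le_iff_of_nonneg (Real.exp_pos _).le]
      intro i
      rw [Pi.sub_apply, hnorm]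
      exact (hp k i).2
    have h5 : ‖Ff A B C F (cx (a k))‖ ≤ (|L| + 1) * Real.exp (-(q k : ℝ) ^ k) := by
      refine e3.trans ?_
      have h6 : L ≤ |L| + 1 := by linarith [le_abs_self L]
      calc L * ‖cx (a k) - cx ξ‖ ≤ (|L| + 1) * ‖cx (a k) - cx ξ‖ := mul_le_mul_of_nonneg_right h6 (norm_nonneg _)
        _ ≤ _ := mul_le_mul_of_nonneg_left hup hL0
    have hlp : 0 < |L| + 1 := by positivity
    have h7 : Real.exp (-(q k : ℝ) ^ C₁) ≤ Real.exp (Real.log (|L| + 1) - (q k : ℝ) ^ k) := by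
      rw [sub_eq_add_neg, Real.exp_add, Real.exp_log hlp]
      exact hlow.trans h5
    rw [Real.exp_le_exp] at h7
    have hlog : 0 ≤ Real.log (|L| + 1) := Real.log_nonneg (by linarith [abs_nonneg L])
    have hq1 : (1 : ℝ) ≤ q k := by linarith [hqr k]
    have h8 : (q k : ℝ) ^ C₁ * (Real.log (|L| + 1) + 2) ≤ (q k : ℝ) ^ k := by
      calc (q k : ℝ) ^ C₁ * (Real.log (|L| + 1) + 2) ≤ (q k : ℝ) ^ C₁ * 2 ^ k₂ :=
            mul_le_mul_of_nonneg_left hk₂.le (by positivity)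
        _ ≤ (q k : ℝ) ^ C₁ * (q k : ℝ) ^ k₂ :=
            mul_le_mul_of_nonneg_left (pow_le_pow_left₀ (by norm_num) (hqr k) _) (by positivity)
        _ = (q k : ℝ) ^ (C₁ + k₂) := (pow_add _ _ _).symm
        _ ≤ (q k : ℝ) ^ k := pow_le_pow_right₀ hq1 e4
    have h9 : (1 : ℝ) ≤ (q k : ℝ) ^ C₁ := one_le_pow₀ hq1
    nlinarith
  -- the conclusion
  have key : (fun x => Ff A B C F (cx ξ + x)) =ᶠ[𝓝 0] 0 := by
    refine eq_zero_of_small (ρ := fun k : ℕ => Real.exp (-(k : ℝ))) (fun _ => (Real.exp_pos _).le) hexp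
      (δ := fun k => cx (a k) - cx ξ) ?_ ?_ ?_ ?_ ?_
    · intro k i h1
      have h2 := hnorm k i
      rw [Pi.sub_apply] at h1
      rw [h1, norm_zero] at h2
      exact (hp k i).1 (sub_eq_zero.1 (abs_eq_zero.1 h2.symm))
    · intro i κ
      filter_upwards [eventually_ge_atTop (κ + 4)] with k hk
      rw [Pi.sub_apply, hnorm]
      refine (hp k i).2.trans ?_
      rw [← Real.exp_nat_mul]
      apply Real.exp_le_exp.2
      have h1 : (κ : ℝ) * k ≤ (q k : ℝ) ^ k := by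
        have h2 : (κ * k) ≤ 2 ^ k := (Nat.mul_le_mul_right k (by omega)).trans (sq_le_two (by omega))
        have h3 : ((2 : ℕ) : ℝ) ^ k ≤ (q k : ℝ) ^ k := pow_le_pow_left₀ (by norm_num) (by exact_mod_cast hq k) _
        have h4 : (κ : ℝ) * k ≤ ((2 : ℕ) : ℝ) ^ k := by exact_mod_cast h2
        linarith
      linarith
    · intro i j hij κ
      filter_upwards [eventually_ge_atTop κ] with k hk
      rw [Pi.sub_apply, Pi.sub_apply, hnorm, hnorm]
      refine (hh k i j hij).trans ?_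
      have h1 : |ξ i - a k i| ≤ 1 := (hsm k i).trans (Real.exp_le_one_iff.2 (by simp))
      exact pow_le_pow_of_le_one (abs_nonneg _) h1 hk
    · have h1 : AnalyticAt ℂ (fun x : Fin m → ℂ => cx ξ + x) 0 := analyticAt_const.add analyticAt_id
      have h2 : AnalyticAt ℂ (Ff A B C F) (cx ξ + 0) := by rwa [add_zero]
      exact AnalyticAt.fun_comp (g := Ff A B C F) (f := fun x : Fin m → ℂ => cx ξ + x) h2 h1
    · filter_upwards [hz] with k hk
      rw [add_sub_cancel]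
      exact hk
  have h3 : Tendsto (fun x : Fin m → ℂ => x - cx ξ) (𝓝 (cx ξ)) (𝓝 0) := by
    have : Tendsto (fun x : Fin m → ℂ => x - cx ξ) (𝓝 (cx ξ)) (𝓝 (cx ξ - cx ξ)) := (tendsto_id.sub tendsto_const_nhds)
    rwa [sub_self] at this
  filter_upwards [h3.eventually key] with x hx
  rw [add_sub_cancel] at hx
  exact hx

end Pool.Agent.NH23.Core
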