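import Pool.Agent.H73.G.RA.NH23.CoreB

/-!
# No relations at a point with good approximations
-/

set_option autoImplicit false

open Filter Topology MvPolynomial UpperHalfPlane

noncomputable section

namespace Pool.Agent.NH23.Core

open Pool.Agent.NH23.Qua
open Pool.Agent.NH23.Pair (Alg)
open Pool.Agent.NH23.Tup (Tpl)
open H294ZP (jj)
open Pool.Agent.Y776 (jf)

variable {m n : ℕ} {ξ : Fin m → ℝ} {A B C : Fin n → MvPolynomial (Fin m) ℤ} {z : Fin n → ℂ}

theorem hom_aeval {σ : Type} {S : Type} [CommRing S] [Algebra ℤ S] (φ : S →+* ℂ) (g : σ → S) (P : MvPolynomial σ ℤ) :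
    φ (aeval g P) = aeval (fun k => φ (g k)) P := by
  rw [MvPolynomial.map_aeval, MvPolynomial.aeval_def, MvPolynomial.coe_eval₂Hom]
  congr 1
  exact Subsingleton.elim _ _

/-- the polynomial `A z ^ 2 + B z + C` -/
def Qf (A B C' : MvPolynomial (Fin m) ℤ) (z : ℂ) : MvPolynomial (Fin m) ℂ :=
  MvPolynomial.C (z ^ 2) * map (algebraMap ℤ ℂ) A + MvPolynomial.C z * map (algebraMap ℤ ℂ) B +
    map (algebraMap ℤ ℂ) C'

theorem Qf_eval (A B C' : MvPolynomial (Fin m) ℤ) (z : ℂ) (x : Fin m → ℂ) :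
    eval x (Qf A B C' z) = aeval x A * z ^ 2 + aeval x B * z + aeval x C' := by
  rw [Qf, map_add, map_add, map_mul, map_mul, eval_C, eval_C, eval_map, eval_map, eval_map, aeval_def, aeval_def,
    aeval_def]
  ring

theorem Qf_ne {A B C' : MvPolynomial (Fin m) ℤ} {z : ℂ} (hA : A ≠ 0)
    (hz : ∀ a b c : ℤ, (a : ℂ) * z ^ 2 + b * z + c = 0 → a = 0) : Qf A B C' z ≠ 0 := by
  intro h0
  apply hA
  ext e
  have h1 := congrArg (MvPolynomial.coeff e) h0
  rw [Qf, coeff_add, coeff_add, coeff_C_mul, coeff_C_mul, coeff_map, coeff_map, coeff_map, coeff_zero] at h1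
  simp only [algebraMap_int_eq, eq_intCast] at h1
  rw [coeff_zero]
  exact hz _ (B.coeff e) (C'.coeff e) (by linear_combination h1)

end Pool.Agent.NH23.Core
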