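import Pool.Agent.H73.G.RA.NH23.FldR

/-!
# An explicit set
-/

set_option autoImplicit false

open Filter Topology MvPolynomial

noncomputable section

namespace Pool.Agent.NH23.Core

/-- the exponents `1, 4, 2 ^ 12, …` -/
def ee : ℕ → ℕ
  | 0 => 1
  | k + 1 => 2 ^ ((k + 2) * ee k)

theorem ee_pos (k : ℕ) : 1 ≤ ee k := by
  cases k with
  | zero => exact le_refl 1
  | succ k => exact Nat.one_le_two_pow

theorem ee_succ (k : ℕ) : (k + 2) * ee k + 1 ≤ ee (k + 1) := Nat.succ_le_of_lt Nat.lt_two_pow_self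

theorem ee_lt (k : ℕ) : ee k < ee (k + 1) := by
  have h1 := ee_succ k
  have h2 := ee_pos k
  nlinarith

theorem ee_mono : StrictMono ee := strictMono_nat_of_lt_succ ee_lt

/-- the index -/
def ix (t : ℝ) (l : ℕ) : ℕ := ⌊(2 : ℝ) ^ l * t⌋₊

theorem ix_ge {t : ℝ} (ht : 1 ≤ t) (l : ℕ) : 2 ^ l ≤ ix t l := by
  apply Nat.le_floor
  push_cast
  nlinarith [pow_pos (show (0 : ℝ) < 2 by norm_num) l]

theorem ix_lt {t : ℝ} (ht : 1 ≤ t) (ht2 : t < 2) (l : ℕ) : ix t l < 2 ^ (l + 1) := by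
  rw [ix, Nat.floor_lt (by positivity)]
  push_cast
  rw [pow_succ]
  have := pow_pos (show (0 : ℝ) < 2 by norm_num) l
  nlinarith

theorem ix_succ {t : ℝ} (ht : 1 ≤ t) (ht2 : t < 2) (l : ℕ) : ix t l < ix t (l + 1) :=
  (ix_lt ht ht2 l).trans_le (ix_ge ht _)

/-- the numbers -/
def lam (t : ℝ) : ℝ := ∑' l : ℕ, (1 / 2 : ℝ) ^ ee ⌊(2 : ℝ) ^ l * t⌋₊

theorem lam_eq (t : ℝ) : lam t = ∑' l : ℕ, (1 / 2 : ℝ) ^ ee (ix t l) := rfl

theorem exp_add {t : ℝ} (ht : 1 ≤ t) (ht2 : t < 2) (l k : ℕ) : ee (ix t l) + k ≤ ee (ix t (l + k)) := by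
  induction k with
  | zero => exact le_refl _
  | succ k ih =>
    have h1 := ee_mono (ix_succ ht ht2 (l + k))
    rw [← add_assoc l k 1]
    omega

theorem term_le {t : ℝ} (ht : 1 ≤ t) (ht2 : t < 2) (l k : ℕ) :
    (1 / 2 : ℝ) ^ ee (ix t (l + k)) ≤ (1 / 2 : ℝ) ^ ee (ix t l) * (1 / 2) ^ k := by
  rw [← pow_add]
  exact pow_le_pow_of_le_one (by norm_num) (by norm_num) (exp_add ht ht2 l k)

theorem summ {t : ℝ} (ht : 1 ≤ t) (ht2 : t < 2) : Summable fun l : ℕ => (1 / 2 : ℝ) ^ ee (ix t l) := by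
  refine Summable.of_nonneg_of_le (fun l => by positivity) (fun l => ?_)
    ((summable_geometric_of_lt_one (by norm_num : (0 : ℝ) ≤ 1 / 2) (by norm_num)).mul_left ((1 / 2 : ℝ) ^ ee (ix t 0)))
  have := term_le ht ht2 0 l
  rwa [zero_add] at this

/-- the tails -/
def tl (t : ℝ) (l : ℕ) : ℝ := ∑' k : ℕ, (1 / 2 : ℝ) ^ ee (ix t (l + k))

theorem summ_tl {t : ℝ} (ht : 1 ≤ t) (ht2 : t < 2) (l : ℕ) : Summable fun k : ℕ => (1 / 2 : ℝ) ^ ee (ix t (l + k)) := by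
  have := (summable_nat_add_iff l).2 (summ ht ht2)
  refine this.congr fun k => ?_
  rw [add_comm]

theorem tl_ge {t : ℝ} (ht : 1 ≤ t) (ht2 : t < 2) (l : ℕ) : (1 / 2 : ℝ) ^ ee (ix t l) ≤ tl t l := by
  have := (summ_tl ht ht2 l).le_tsum 0 (fun k _ => by positivity)
  exact this

theorem tl_le {t : ℝ} (ht : 1 ≤ t) (ht2 : t < 2) (l : ℕ) : tl t l ≤ 2 * (1 / 2 : ℝ) ^ ee (ix t l) := by
  have hs := (summable_geometric_of_lt_one (by norm_num : (0 : ℝ) ≤ 1 / 2) (by norm_num)).mul_left ((1 / 2 : ℝ) ^ ee (ix t l))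
  have h1 := (summ_tl ht ht2 l).tsum_le_tsum (fun k => term_le ht ht2 l k) hs
  rw [tsum_mul_left, tsum_geometric_of_lt_one (by norm_num) (by norm_num)] at h1
  rw [tl]
  calc _ ≤ _ := h1
    _ = _ := by ring

theorem lam_split {t : ℝ} (ht : 1 ≤ t) (ht2 : t < 2) (l : ℕ) :
    lam t = (∑ k ∈ Finset.range l, (1 / 2 : ℝ) ^ ee (ix t k)) + tl t l := by
  rw [lam_eq, ← (summ ht ht2).sum_add_tsum_nat_add l, tl]
  congr 1
  refine tsum_congr fun k => ?_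
  rw [add_comm]

/-- the denominators -/
def qd (l : ℕ) : ℕ := 2 ^ ee (2 ^ l - 1)

theorem head {t : ℝ} (ht : 1 ≤ t) (ht2 : t < 2) (l : ℕ) :
    ∃ p : ℤ, ∑ k ∈ Finset.range l, (1 / 2 : ℝ) ^ ee (ix t k) = (p : ℝ) / (qd l : ℝ) := by
  refine ⟨∑ k ∈ Finset.range l, 2 ^ (ee (2 ^ l - 1) - ee (ix t k)), ?_⟩
  push_cast
  rw [Finset.sum_div]
  refine Finset.sum_congr rfl fun k hk => ?_
  have hk' : k < l := Finset.mem_range.1 hk
  have h1 : ix t k ≤ 2 ^ l - 1 := by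
    have h2 := ix_lt ht ht2 k
    have h3 : 2 ^ (k + 1) ≤ 2 ^ l := Nat.pow_le_pow_right (by norm_num) hk'
    omega
  have h2 : ee (ix t k) ≤ ee (2 ^ l - 1) := ee_mono.monotone h1
  rw [qd]
  push_cast
  rw [eq_div_iff (by positivity), one_div, inv_pow, inv_mul_eq_iff_eq_mul₀ (by positivity), ← pow_add]
  congr 1
  omega

theorem qd_ge (l : ℕ) : 2 ≤ qd l := by
  rw [qd]
  calc 2 = 2 ^ 1 := by norm_num
    _ ≤ _ := Nat.pow_le_pow_right (by norm_num) (ee_pos _)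

theorem ee_two (l : ℕ) : ee (2 ^ l) = qd l ^ (2 ^ l + 1) := by
  obtain ⟨k, hk⟩ : ∃ k, 2 ^ l = k + 1 := ⟨2 ^ l - 1, (Nat.sub_add_cancel Nat.one_le_two_pow).symm⟩
  rw [qd, hk, ee, Nat.add_sub_cancel, ← pow_mul]
  congr 1
  ring

theorem tl_small {t : ℝ} (ht : 1 ≤ t) (ht2 : t < 2) {l κ : ℕ} (hl : κ + 1 ≤ 2 ^ l) :
    tl t l ≤ Real.exp (-(qd l : ℝ) ^ κ) := by
  refine (tl_le ht ht2 l).trans ?_
  have h1 : (1 / 2 : ℝ) ^ ee (ix t l) ≤ (1 / 2 : ℝ) ^ ee (2 ^ l) :=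
    pow_le_pow_of_le_one (by norm_num) (by norm_num) (ee_mono.monotone (ix_ge ht l))
  have h2 : 4 * qd l ^ κ ≤ ee (2 ^ l) := by
    rw [ee_two]
    calc 4 * qd l ^ κ ≤ qd l ^ 2 * qd l ^ κ := by
          have := qd_ge l
          apply Nat.mul_le_mul_right
          nlinarith
      _ = qd l ^ (κ + 2) := by rw [← pow_add, add_comm]
      _ ≤ _ := Nat.pow_le_pow_right (by linarith [qd_ge l]) (by omega)
  have h3 : (1 / 2 : ℝ) ^ ee (2 ^ l) ≤ (1 / 2 : ℝ) ^ (4 * qd l ^ κ) :=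
    pow_le_pow_of_le_one (by norm_num) (by norm_num) h2
  have h4 : (1 : ℝ) ≤ (qd l : ℝ) ^ κ := one_le_pow₀ (by exact_mod_cast (by linarith [qd_ge l] : 1 ≤ qd l))
  have h5 : (1 / 2 : ℝ) = Real.exp (-Real.log 2) := by
    rw [Real.exp_neg, Real.exp_log (by norm_num)]
    norm_num
  have h6 : (2 : ℝ) = Real.exp (Real.log 2) := (Real.exp_log (by norm_num)).symm
  have h7 : (2 : ℝ) * (1 / 2 : ℝ) ^ (4 * qd l ^ κ) = Real.exp (Real.log 2 - Real.log 2 * (4 * (qd l : ℝ) ^ κ)) := by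
    rw [sub_eq_add_neg, Real.exp_add, Real.exp_log (by norm_num), h5, ← Real.exp_nat_mul]
    congr 2
    push_cast
    ring
  calc 2 * (1 / 2 : ℝ) ^ ee (ix t l) ≤ 2 * (1 / 2 : ℝ) ^ (4 * qd l ^ κ) := by linarith
    _ = Real.exp (Real.log 2 - Real.log 2 * (4 * (qd l : ℝ) ^ κ)) := h7
    _ ≤ _ := by
      apply Real.exp_le_exp.2
      have h8 : (0.6931471803 : ℝ) < Real.log 2 := Real.log_two_gt_d9
      nlinarith

theorem tl_pos {t : ℝ} (ht : 1 ≤ t) (ht2 : t < 2) (l : ℕ) : 0 < tl t l :=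
  lt_of_lt_of_le (by positivity) (tl_ge ht ht2 l)

theorem ix_lt_ix {t t' : ℝ} (ht : 1 ≤ t) {l : ℕ} (h : 1 ≤ (2 : ℝ) ^ l * (t' - t)) : ix t l < ix t' l := by
  have h1 : (2 : ℝ) ^ l * t + 1 ≤ (2 : ℝ) ^ l * t' := by linarith
  have h2 : ⌊(2 : ℝ) ^ l * t + 1⌋₊ ≤ ⌊(2 : ℝ) ^ l * t'⌋₊ := Nat.floor_mono h1
  rw [Nat.floor_add_one (by positivity)] at h2
  exact h2

theorem tl_hier {t t' : ℝ} (ht : 1 ≤ t) (ht2 : t < 2) (ht' : 1 ≤ t') (ht2' : t' < 2) {l κ : ℕ} (hl : κ ≤ 2 ^ l)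
    (h : 1 ≤ (2 : ℝ) ^ l * (t' - t)) : tl t' l ≤ tl t l ^ κ := by
  have h1 := ix_lt_ix ht h
  have h2 : κ * ee (ix t l) + 1 ≤ ee (ix t' l) := by
    have h3 := ee_succ (ix t l)
    have h4 : ee (ix t l + 1) ≤ ee (ix t' l) := ee_mono.monotone h1
    have h5 := ix_ge ht l
    have h6 : κ * ee (ix t l) ≤ (ix t l + 2) * ee (ix t l) := Nat.mul_le_mul_right _ (by omega)
    omega
  calc tl t' l ≤ 2 * (1 / 2 : ℝ) ^ ee (ix t' l) := tl_le ht' ht2' l
    _ ≤ 2 * (1 / 2 : ℝ) ^ (κ * ee (ix t l) + 1) := by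
      have := pow_le_pow_of_le_one (by norm_num : (0 : ℝ) ≤ 1 / 2) (by norm_num) h2
      linarith
    _ = ((1 / 2 : ℝ) ^ ee (ix t l)) ^ κ := by
      rw [pow_succ, ← pow_mul, mul_comm κ]
      ring
    _ ≤ tl t l ^ κ := pow_le_pow_left₀ (by positivity) (tl_ge ht ht2 l) κ

/-- increasing parameters -/
theorem hc_lam {m : ℕ} {t : Fin m → ℝ} (ht : ∀ i, 1 ≤ t i ∧ t i < 2) (hmono : StrictMono t) : Hc fun i => lam (t i) := by
  classical
  intro κ
  have hev : ∀ᶠ l : ℕ in atTop, κ + 1 ≤ 2 ^ l ∧ ∀ i j, i < j → 1 ≤ (2 : ℝ) ^ l * (t j - t i) := by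
    have h1 : Tendsto (fun l : ℕ => (2 : ℝ) ^ l) atTop atTop := tendsto_pow_atTop_atTop_of_one_lt (by norm_num)
    refine Filter.Eventually.and ?_ ?_
    · filter_upwards [eventually_ge_atTop (κ + 1)] with l hl
      exact hl.trans Nat.lt_two_pow_self.le
    · rw [eventually_all]
      intro i
      rw [eventually_all]
      intro j
      by_cases hij : i < j
      · have h2 : 0 < t j - t i := sub_pos.2 (hmono hij)
        filter_upwards [(h1.atTop_mul_const h2).eventually_ge_atTop 1] with l hl _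
        exact hl
      · exact Eventually.of_forall fun l h => absurd h hij
  obtain ⟨l, hl, hl'⟩ := hev.exists
  choose p hp using fun i => head (ht i).1 (ht i).2 l
  have hval : ∀ i, lam (t i) - (p i : ℝ) / (qd l : ℝ) = tl (t i) l := by
    intro i
    rw [lam_split (ht i).1 (ht i).2 l, hp i]
    ring
  refine ⟨qd l, p, qd_ge l, fun i => ⟨?_, ?_⟩, fun i j hij => ?_⟩
  · intro h0
    have h1 := hval i
    simp only at h0
    rw [h0, sub_self] at h1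
    exact (tl_pos (ht i).1 (ht i).2 l).ne h1
  · simp only
    rw [hval, abs_of_pos (tl_pos (ht i).1 (ht i).2 l)]
    exact tl_small (ht i).1 (ht i).2 hl
  · simp only
    rw [hval, hval, abs_of_pos (tl_pos (ht i).1 (ht i).2 l), abs_of_pos (tl_pos (ht j).1 (ht j).2 l)]
    exact tl_hier (ht i).1 (ht i).2 (ht j).1 (ht j).2 (by omega) (hl' i j hij)

/-- the set -/
def S0 : Set ℝ := lam '' Set.Ico 1 2

theorem hier_S0 : Hier S0 := by
  classical
  intro T hT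
  have h1 : ∀ x : T, ∃ t ∈ Set.Ico (1 : ℝ) 2, lam t = x := fun x => hT x.2
  choose t ht hx using h1
  set T' : Finset ℝ := Finset.univ.image t with hT'
  have hT'm : ∀ s ∈ T', 1 ≤ s ∧ s < 2 := by
    intro s hs
    obtain ⟨x, _, rfl⟩ := Finset.mem_image.1 hs
    exact ht x
  refine ⟨T'.card, fun i => lam (T'.orderEmbOfFin rfl i), ?_, hc_lam (fun i => hT'm _ (Finset.orderEmbOfFin_mem _ _ _))
    (OrderEmbedding.strictMono _)⟩
  ext x
  constructor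
  · rintro ⟨i, rfl⟩
    obtain ⟨y, _, hy⟩ := Finset.mem_image.1 (Finset.orderEmbOfFin_mem T' rfl i)
    simp only
    rw [← hy, hx]
    exact y.2
  · intro hxT
    have h2 : t ⟨x, hxT⟩ ∈ T' := Finset.mem_image.2 ⟨_, Finset.mem_univ _, rfl⟩
    have h3 : t ⟨x, hxT⟩ ∈ Set.range (T'.orderEmbOfFin rfl) := by
      rw [Finset.range_orderEmbOfFin]
      exact h2
    obtain ⟨i, hi⟩ := h3
    refine ⟨i, ?_⟩
    simp only
    rw [hi, hx]

theorem lam_inj : Set.InjOn lam (Set.Ico 1 2) := by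
  have key : ∀ s ∈ Set.Ico (1 : ℝ) 2, ∀ t ∈ Set.Ico (1 : ℝ) 2, s < t → lam s ≠ lam t := by
    intro s hs t ht hst heq
    have hmono : StrictMono ![s, t] := by
      intro i j hij
      fin_cases i <;> fin_cases j <;> simp_all
    have h1 : Hc fun i => lam (![s, t] i) := hc_lam (by
      intro i
      fin_cases i
      · exact hs
      · exact ht) hmono
    have h2 := h1.no_rel (X 0 - X 1) (by
      rw [map_sub, aeval_X, aeval_X]
      show ((lam s : ℝ) : ℂ) - ((lam t : ℝ) : ℂ) = 0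
      rw [heq, sub_self])
    have h3 := congrArg (MvPolynomial.eval (fun i : Fin 2 => if i = 0 then (1 : ℤ) else 0)) h2
    simp at h3
  intro s hs t ht hst
  by_contra hne
  rcases lt_or_gt_of_ne hne with h | h
  · exact key s hs t ht h hst
  · exact key t ht s hs h hst.symm

theorem mk_S0 : Cardinal.mk S0 = Cardinal.continuum := by
  rw [S0, Cardinal.mk_image_eq_of_injOn _ _ lam_inj, Cardinal.mk_Ico_real (by norm_num)]

end Pool.Agent.NH23.Core
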