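import Pool.Agent.H73.G.RA.NH23.Ex

/-!
# Algebraic independence over the rational numbers
-/

set_option autoImplicit false

open MvPolynomial

noncomputable section

namespace Pool.Agent.NH23.Core

theorem clearQ {m : ℕ} (P : MvPolynomial (Fin m) ℚ) : ∃ (G : MvPolynomial (Fin m) ℤ) (N : ℤ), N ≠ 0 ∧
    MvPolynomial.map (Int.castRingHom ℚ) G = C (N : ℚ) * P := by
  induction P using MvPolynomial.induction_on with
  | C a =>
    refine ⟨C a.num, a.den, by exact_mod_cast a.den_ne_zero, ?_⟩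
    rw [map_C, ← C_mul]
    congr 1
    simp only [eq_intCast, Int.cast_natCast]
    rw [mul_comm]
    exact (Rat.mul_den_eq_num a).symm
  | add P Q hP hQ =>
    obtain ⟨G, N, hN, h1⟩ := hP
    obtain ⟨G', N', hN', h2⟩ := hQ
    refine ⟨C N' * G + C N * G', N * N', mul_ne_zero hN hN', ?_⟩
    rw [map_add, map_mul, map_mul, map_C, map_C, h1, h2]
    push_cast
    simp only [eq_intCast, C_mul]
    ring
  | mul_X P i hP =>
    obtain ⟨G, N, hN, h1⟩ := hP
    refine ⟨G * X i, N, hN, ?_⟩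
    rw [map_mul, h1, map_X]
    ring

theorem Hc.algInd {m : ℕ} {ξ : Fin m → ℝ} (hξ : Hc ξ) : AlgebraicIndependent ℚ ξ := by
  rw [algebraicIndependent_iff]
  intro P hP
  obtain ⟨G, N, hN, hG⟩ := clearQ P
  have h1 : aeval ξ (MvPolynomial.map (Int.castRingHom ℚ) G) = (0 : ℝ) := by rw [hG, map_mul, hP, mul_zero]
  have h2 : aeval ξ G = (0 : ℝ) := by
    rw [← h1, aeval_def, aeval_def, eval₂_map]
    congr 1
  have h3 := hξ.no_rel G (by rw [aeval_cx, h2, Complex.ofReal_zero])
  rw [h3, map_zero] at hG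
  refine (mul_eq_zero.1 hG.symm).resolve_left fun h4 => hN ?_
  rw [C_eq_zero] at h4
  exact_mod_cast h4

end Pool.Agent.NH23.Core
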