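import Pool.Agent.H73.G.R8.X39.Near.SchF
import Pool.Agent.H73.G.RA.NH23.Mob
import Pool.Agent.H73.G.RA.NH23.Ratl

/-!
# `j (τ₁)` and `j (τ₂)` for two algebraic functions `τ₁`, `τ₂`
-/

set_option autoImplicit false

open Filter Topology MvPolynomial

noncomputable section

namespace Pool.Agent.NH23.Pair

open Pool.Agent.Y685 Pool.Agent.Y776 Pool.Agent.Y776.AxJ Pool.Agent.X39.Near.Sch
open Pool.Agent.TH813.Rel (DF MK exists_derF bracket_mem)
open Pool.Agent.TH813.Ell (mem_cl_iff)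
open Pool.Agent.Y776.Fam (TS TS_countable Gn countable_Gn countable_zeros IndC exists_cf exists_notMem countable_fam
  AlgOver)
open Pool.Agent.Y776.Cv (FInd)
open Pool.Agent.NH23.Mob

variable {U : Set ℂ} {τ : Fin 2 → ℂ → ℂ}

/-- an algebraic function -/
def Alg (U : Set ℂ) (f : ℂ → ℂ) : Prop :=
  ∃ G : MvPolynomial (Fin 2) ℂ, G ≠ 0 ∧ ∀ z ∈ U, eval ![z, f z] G = 0

/-- two algebraic functions -/
structure TwoA (U : Set ℂ) (τ : Fin 2 → ℂ → ℂ) : Prop where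
  op : IsOpen U
  conn : IsPreconnected U
  ne : U.Nonempty
  an : ∀ i, AnalyticOnNhd ℂ (τ i) U
  im : ∀ i, ∀ z ∈ U, 0 < (τ i z).im
  nc : ∀ i c, ∃ z ∈ U, τ i z ≠ c
  alg : ∀ i, Alg U (τ i)

theorem TwoA.fmj (h : TwoA U τ) : Fmj U (fun _ : Fin 1 => τ 0) (fun k : Fin 0 => k.elim0) where
  op := h.op
  conn := h.conn
  ne := h.ne
  ta := fun _ => h.an 0
  im := fun _ => h.im 0
  nc := fun _ c => h.nc 0 c
  ji := fun i k hik => absurd (Subsingleton.elim i k) hik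
  wa := fun k => k.elim0
  wi := fun _ _ _ => Subsingleton.elim _ _

/-- three functions -/
def yt (τ : Fin 2 → ℂ → ℂ) (k : Fin 3) (z : ℂ) : ℂ :=
  ![h1 (τ 0 z), (LC (τ 0 z)).g₂, (LC (τ 0 z)).g₃] k

theorem TwoA.b_an (h : TwoA U τ) (i : Fin 2) (m : Fin 5) : AnalyticOnNhd ℂ (fun z => b5 m (τ i z)) U := fun z hz =>
  AnalyticAt.fun_comp (g := b5 m) (f := τ i) (b5_an m _ (h.im i z hz)) (h.an i z hz)

theorem TwoA.yt_an (h : TwoA U τ) (k : Fin 3) : AnalyticOnNhd ℂ (yt τ k) U := by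
  fin_cases k
  · exact h.b_an 0 1
  · exact h.b_an 0 2
  · exact h.b_an 0 3

/-- the constants -/
def Gt (G : Fin 2 → MvPolynomial (Fin 2) ℂ) : Set ℂ := {be0} ∪ ⋃ k, ((G k).coeffs : Set ℂ)

theorem Gt_countable (G : Fin 2 → MvPolynomial (Fin 2) ℂ) : (Gt G).Countable :=
  (Set.countable_singleton _).union (Set.countable_iUnion fun _ => Finset.countable_toSet _)

theorem algOver {F : IntermediateField ℚ ℂ} {G : MvPolynomial (Fin 2) ℂ} (hG : G ≠ 0) (hF : (G.coeffs : Set ℂ) ⊆ F)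
    {f : ℂ → ℂ} (hf : ∀ z ∈ U, eval ![z, f z] G = 0) : AlgOver F U f :=
  ⟨G, hG, fun _ hc => hF hc, hf⟩

theorem TwoA.loc (h : TwoA U τ) {G : Fin 2 → MvPolynomial (Fin 2) ℂ} (hG0 : ∀ i, G i ≠ 0)
    (hG : ∀ i, ∀ z ∈ U, eval ![z, τ i z] (G i) = 0) : ∀ t ∈ U, Pool.Agent.Y124.LocInd (yt τ) t := by
  refine loc_all h.fmj one_pos (y := yt τ) h.yt_an (by simp) (G := Gt G) (Gt_countable G) ?_
  intro F hF z hz htr k
  set K := clo F (insert z (Set.range fun k => yt τ k z)) with hK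
  have mb : be0 ∈ K := base_clo (hF (Or.inl rfl))
  have mz : z ∈ K := subset_clo (Or.inl rfl)
  have mO : ∀ k, yt τ k z ∈ K := fun k => subset_clo (Or.inr ⟨k, rfl⟩)
  have mn : ∀ n : ℕ, (n : ℂ) ∈ K := fun n => natCast_mem _ n
  have m2 := mn 2
  have m3 := mn 3
  have m12 := mn 12
  have m27 := mn 27
  have m1728 := mn 1728
  have m31104 := mn 31104
  push_cast at m2 m3 m12 m27 m1728 m31104
  have mt0 : τ 0 z ∈ K := by
    have h1 : AlgOver F U (τ 0) := algOver (hG0 0) (fun x hx => hF (Or.inr (Set.mem_iUnion.2 ⟨0, hx⟩))) (hG 0)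
    have h2 := h1.mem (le_refl F) hz htr
    exact clo_le (fun s hs => by rw [Set.mem_singleton_iff.1 hs]; exact mz) h2
  have mh : h1 (τ 0 z) ∈ K := mO 0
  have mg2 : (LC (τ 0 z)).g₂ ∈ K := mO 1
  have mg3 : (LC (τ 0 z)).g₃ ∈ K := mO 2
  have md : dlf (τ 0 z) ∈ K := sub_mem (pow_mem mg2 3) (mul_mem m27 (pow_mem mg3 2))
  rcases k with ⟨i, m⟩ | i | i
  · fin_cases m
    · exact mt0
    · exact div_mem (mul_mem m1728 (pow_mem mg2 3)) md
    · show deriv jf (τ 0 z) ∈ _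
      rw [deriv_j (h.im 0 z hz)]
      exact div_mem (mul_mem (mul_mem (mul_mem (neg_mem m31104) mb) (pow_mem mg2 2)) mg3) md
    · show deriv (deriv jf) (τ 0 z) ∈ _
      rw [deriv_dj (h.im 0 z hz)]
      exact div_mem (mul_mem (mul_mem (neg_mem m31104) (pow_mem mb 2)) (sub_mem (sub_mem
        (mul_mem (mul_mem (mul_mem m2 mh) (pow_mem mg2 2)) mg3)
        (mul_mem (mul_mem m12 mg2) (pow_mem mg3 2))) (div_mem (pow_mem mg2 4) m3))) md
  · exact i.elim0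
  · exact i.elim0

/-- the base functions -/
def bt (τ : Fin 2 → ℂ → ℂ) (o : Option (Fin 2 × Fin 5)) : ℂ → ℂ := o.elim (fun z => z) fun p z => b5 p.2 (τ p.1 z)

theorem TwoA.bt_an (h : TwoA U τ) (o : Option (Fin 2 × Fin 5)) : AnalyticOnNhd ℂ (bt τ o) U := by
  rcases o with _ | ⟨i, m⟩
  · exact analyticOnNhd_id
  · exact h.b_an i m

/-- all derivatives -/
def ft (τ : Fin 2 → ℂ → ℂ) (k : Option (Fin 2 × Fin 5) × ℕ) : ℂ → ℂ := deriv^[k.2] (bt τ k.1)

theorem TwoA.ft_an (h : TwoA U τ) (k : Option (Fin 2 × Fin 5) × ℕ) : AnalyticOnNhd ℂ (ft τ k) U :=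
  (h.bt_an k.1).iterated_deriv k.2

/-- the names -/
def nt (o : Option (Fin 3)) : Option (Fin 2 × Fin 5) × ℕ :=
  (o.elim none fun k => some ((![(0, 1), (0, 2), (0, 3)] : Fin 3 → Fin 2 × Fin 5) k), 0)

theorem nt_eq (τ : Fin 2 → ℂ → ℂ) (o : Option (Fin 3)) (z : ℂ) : ft τ (nt o) z = o.elim z fun k => yt τ k z := by
  rcases o with _ | k
  · rfl
  · fin_cases k <;> rfl

theorem TwoA.find (h : TwoA U τ) {G : Fin 2 → MvPolynomial (Fin 2) ℂ} (hG0 : ∀ i, G i ≠ 0)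
    (hG : ∀ i, ∀ z ∈ U, eval ![z, τ i z] (G i) = 0) : FInd U (fun o : Option (Fin 3) => ft τ (nt o)) := by
  intro Q hQ
  obtain ⟨t, ht⟩ := h.ne
  refine h.loc hG0 hG t ht Q ?_
  filter_upwards [h.op.mem_nhds ht] with z hz
  rw [← hQ z hz]
  congr 2
  funext o
  exact (nt_eq τ o z).symm

/-- generic points -/
structure Gp3 (U : Set ℂ) (τ : Fin 2 → ℂ → ℂ) (F : IntermediateField ℚ ℂ) (z₀ : ℂ) : Prop where
  mem : z₀ ∈ U
  tr : ¬ IsAlgebraic F z₀
  gn : Gn U F (ft τ) z₀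
  dt : ∀ i, deriv (τ i) z₀ ≠ 0
  t0 : ∀ i, τ i z₀ ∉ T0

theorem TwoA.countable (h : TwoA U τ) {F : IntermediateField ℚ ℂ} (hF : (F : Set ℂ).Countable) :
    {z | z ∈ U ∧ ¬ Gp3 U τ F z}.Countable := by
  classical
  have hFc : Countable F := hF.to_subtype
  have c1 : {z : ℂ | IsAlgebraic F z}.Countable := Algebraic.countable F ℂ
  have c2 := countable_Gn h.conn hF h.ft_an
  have c3 := countable_fam h.conn (ι := Fin 2) (fun i => deriv (τ i)) (fun i => (h.an i).deriv)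
    (fun i => deriv_ne h.op h.conn h.ne (h.an i) (h.nc i))
  have c4 : {z | z ∈ U ∧ ∃ i, τ i z ∈ T0}.Countable := by
    refine (Set.countable_iUnion fun i : Fin 2 => T0_spec.1.biUnion (fun c _ =>
      countable_zeros h.conn (f := fun z => τ i z - c) ((h.an i).sub analyticOnNhd_const) ?_)).mono ?_
    · obtain ⟨z, hz, hzne⟩ := h.nc i c
      exact ⟨z, hz, sub_ne_zero.2 hzne⟩
    · rintro z ⟨hz, i, hT⟩
      exact Set.mem_iUnion.2 ⟨i, Set.mem_biUnion hT ⟨hz, sub_self _⟩⟩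
  refine (((c1.union c2).union c3).union c4).mono ?_
  rintro z ⟨hz, hg⟩
  by_contra hcon
  simp only [Set.mem_union, not_or] at hcon
  obtain ⟨⟨⟨d1, d2⟩, d3⟩, d4⟩ := hcon
  apply hg
  refine ⟨hz, d1, ?_, fun i h0 => d3 ⟨hz, i, h0⟩, fun i h0 => d4 ⟨hz, i, h0⟩⟩
  by_contra hG
  exact d2 ⟨hz, hG⟩

/-- the Schwarzian derivatives agree at a generic point -/
theorem TwoA.sch (h : TwoA U τ) {G : Fin 2 → MvPolynomial (Fin 2) ℂ} (hG0 : ∀ i, G i ≠ 0)
    (hG : ∀ i, ∀ z ∈ U, eval ![z, τ i z] (G i) = 0) {Q : MvPolynomial (Fin 2) ℂ} (hne : Q ≠ 0)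
    (hQ : ∀ z ∈ U, eval (fun m : Fin 2 => jf (τ m z)) Q = 0) {F : IntermediateField ℚ ℂ}
    (hF : Gt G ∪ (Q.coeffs : Set ℂ) ⊆ F) {z₀ : ℂ} (g : Gp3 U τ F z₀) : Mob.Sf (τ 1) z₀ = Mob.Sf (τ 0) z₀ := by
  classical
  have hz₀ := g.mem
  obtain ⟨D, hDF, hD⟩ := exists_Dinf h.op hz₀ h.ft_an g.gn
  have hder : ∀ {k : Option (Fin 2 × Fin 5)} {d : ℂ}, HasDerivAt (bt τ k) d z₀ → D (bt τ k z₀) = d := by
    intro k d hd
    have h1 := hD (k, 0)
    exact h1.trans hd.deriv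
  have hai := fun i => T0_spec.2 (τ i z₀) (h.im i z₀ hz₀) (g.t0 i)
  have hok : ∀ i, (QL (τ i z₀)).Ok := fun i => QL_ok (hai i)
  have hDb : D be0 = 0 := hDF _ (hF (Or.inl (Or.inl rfl)))
  have hDz : D z₀ = 1 := hder (k := none) (hasDerivAt_id z₀)
  have hτ : ∀ i, HasDerivAt (τ i) (deriv (τ i) z₀) z₀ := fun i => (h.an i z₀ hz₀).differentiableAt.hasDerivAt
  have hDt : ∀ i, D (τ i z₀) = deriv (τ i) z₀ := fun i => hder (k := some (i, 0)) (hτ i)
  have fl : ∀ i, Fl D be0 (h1 (τ i z₀)) (LC (τ i z₀)).g₂ (LC (τ i z₀)).g₃ (deriv (τ i) z₀) := fun i =>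
    { b0 := be0_ne
      c0 := g.dt i
      p0 := (hok i).p0
      q0 := (hok i).q0
      d0 := (hok i).dl
      db := hDb
      dh := hder (k := some (i, 1)) ((der_h (h.im i z₀ hz₀)).comp z₀ (hτ i))
      dp := hder (k := some (i, 2)) ((der_p (h.im i z₀ hz₀)).comp z₀ (hτ i))
      dq := hder (k := some (i, 3)) ((der_q (h.im i z₀ hz₀)).comp z₀ (hτ i)) }
  have hFC : F ≤ Cst D := fun x hx => hDF x hx
  -- the derivatives of the points
  have hc : ∀ i, deriv (τ i) z₀ ∈ clo (Cst D) {z₀} := by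
    intro i
    have h1 : AlgOver F U (τ i) := algOver (hG0 i) (fun x hx => hF (Or.inl (Or.inr (Set.mem_iUnion.2 ⟨i, hx⟩)))) (hG i)
    have h2 := h1.mem hFC hz₀ g.tr
    have h3 := stab (D := D) (x := z₀) (by rw [hDz]; exact one_ne_zero) h2
    rwa [hDz, div_one, hDt i] at h3
  -- the invariants
  have hjg := fun i => gg_of_j (h.im i z₀ hz₀) (hok i)
  have hdg : ∀ i, D (gg (QL (τ i z₀))) ≠ 0 := fun i => (fl i).dg0
  have m1728 : ∀ S : Set ℂ, (1728 : ℂ) ∈ clo (Cst D) S := fun S => by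
    have := natCast_mem (clo (Cst D) S) 1728
    exact_mod_cast this
  have m27 : ∀ S : Set ℂ, (27 : ℂ) ∈ clo (Cst D) S := fun S => by
    have := natCast_mem (clo (Cst D) S) 27
    exact_mod_cast this
  have hx0 : D (jf (τ 0 z₀)) ≠ 0 := by
    intro h0
    apply hdg 0
    have hx : gg (QL (τ 0 z₀)) ∈ clo (Cst D) {jf (τ 0 z₀)} := by
      rw [(hjg 0).2.1]
      exact div_mem (mul_mem (m27 _) (subset_clo rfl)) (sub_mem (subset_clo rfl) (m1728 _))
    exact hx D (Pool.Agent.X39.Near.Sch.D_mem D) (fun s hs => by rw [Set.mem_singleton_iff.1 hs]; exact h0)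
  obtain ⟨Q', hQ'⟩ : ∃ Q' : MvPolynomial (Fin 2) (Cst D), MvPolynomial.map (algebraMap (Cst D) ℂ) Q' = Q := by
    have h1 : Q ∈ Set.range (MvPolynomial.map (σ := Fin 2) (algebraMap (Cst D) ℂ)) := by
      rw [mem_range_map_iff_coeffs_subset]
      intro c hc
      exact ⟨⟨c, hDF c (hF (Or.inr hc))⟩, rfl⟩
    exact h1
  have hQ0 : Q' ≠ 0 := by
    rintro rfl
    rw [map_zero] at hQ'
    exact hne hQ'.symm
  have hQe : aeval ![jf (τ 0 z₀), jf (τ 1 z₀)] Q' = 0 := by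
    have h1 := hQ z₀ hz₀
    rw [← hQ', eval_map, ← aeval_def] at h1
    rw [← h1]
    congr 1
    apply congrArg
    funext m
    fin_cases m <;> rfl
  have hx1 := mem_of_eq (Pool.Agent.X39.Near.Sch.D_mem D) hx0 hQ0 hQe
  have hg : gg (QL (τ 1 z₀)) ∈ clo (Cst D) {gg (QL (τ 0 z₀))} := by
    have s1 : jf (τ 0 z₀) ∈ clo (Cst D) {gg (QL (τ 0 z₀))} := by
      rw [(hjg 0).2.2]
      exact div_mem (mul_mem (m1728 _) (subset_clo rfl)) (sub_mem (subset_clo rfl) (m27 _))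
    have s2 : jf (τ 1 z₀) ∈ clo (Cst D) {gg (QL (τ 0 z₀))} :=
      clo_le (fun s hs => by rw [Set.mem_singleton_iff.1 hs]; exact s1) hx1
    rw [(hjg 1).2.1]
    exact div_mem (mul_mem (m27 _) s2) (sub_mem s2 (m1728 _))
  -- independence of the values over the constants
  have hind := const_indep (f := ft τ) (d := fun k => (k.1, k.2 + 1)) h.op h.conn hz₀ h.ft_an
    (fun k z _ => by rw [ft, ft, Function.iterate_succ_apply']) hD nt (h.find hG0 hG)
  have hv : ∀ o, ft τ (nt o) z₀ = o.elim z₀ fun k => yt τ k z₀ := fun o => nt_eq τ o z₀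
  have hS : S2 D (deriv (τ 1) z₀) = S2 D (deriv (τ 0) z₀) := by
    refine step (fl 0) (fl 1) hDz (hc 0) (hc 1) hg ?_
    obtain ⟨δ, hδ, hv'⟩ := exists_derF (Cst D) hind (fun o => o.elim 0
      ![0, 2 * (LC (τ 0 z₀)).g₂, 3 * (LC (τ 0 z₀)).g₃])
    refine ⟨δ, hδ, ?_, ?_, ?_⟩
    · have := hv' none
      rwa [hv none] at this
    · have := hv' (some 1)
      rwa [hv (some 1)] at this
    · have := hv' (some 2)
      rwa [hv (some 2)] at this
  -- the derivation and the derivative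
  have hSf : ∀ i, S2 D (deriv (τ i) z₀) = Mob.Sf (τ i) z₀ := by
    intro i
    have e1 : D (deriv (τ i) z₀) = deriv (deriv (τ i)) z₀ := hD (some (i, 0), 1)
    have e2 : D (deriv (deriv (τ i)) z₀) = deriv (deriv (deriv (τ i))) z₀ := hD (some (i, 0), 2)
    have a1 : AnalyticAt ℂ (deriv (τ i)) z₀ := ((h.an i).deriv) z₀ hz₀
    have a2 : AnalyticAt ℂ (deriv (deriv (τ i))) z₀ := ((h.an i).deriv.deriv) z₀ hz₀
    have e3 : deriv (ld (τ i)) z₀ = (deriv (deriv (deriv (τ i))) z₀ * deriv (τ i) z₀ -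
        deriv (deriv (τ i)) z₀ * deriv (deriv (τ i)) z₀) / deriv (τ i) z₀ ^ 2 :=
      (a2.differentiableAt.hasDerivAt.fun_div a1.differentiableAt.hasDerivAt (g.dt i)).deriv
    rw [S2, Mob.Sf, e3, e1, ddiv _ _ (g.dt i), e1, e2, ld]
  rw [← hSf, ← hSf, hS]

open Pool.Agent.NH23.Cross in
theorem ev2_eq (P : Polynomial (Polynomial ℂ)) (x y : ℂ) : ev2 P x y = (P.map (Polynomial.evalRingHom x)).eval y := by
  have h1 : (P.map (Polynomial.evalRingHom x)).natDegree < P.natDegree + 1 :=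
    Nat.lt_succ_of_le Polynomial.natDegree_map_le
  rw [Polynomial.eval_eq_sum_range' h1, ev2]
  refine Finset.sum_congr rfl fun k _ => ?_
  rw [Polynomial.coeff_map]
  rfl

open Pool.Agent.NH23.Cross in
theorem exists_ev2 {Q : MvPolynomial (Fin 2) ℂ} (hQ : Q ≠ 0) :
    ∃ P : Polynomial (Polynomial ℂ), P ≠ 0 ∧ ∀ x y : ℂ, ev2 P x y = eval ![x, y] Q := by
  set P : Polynomial (Polynomial ℂ) :=
    MvPolynomial.aeval (![Polynomial.C Polynomial.X, Polynomial.X] : Fin 2 → Polynomial (Polynomial ℂ)) Q with hP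
  have key : ∀ x y : ℂ, ev2 P x y = eval ![x, y] Q := by
    intro x y
    rw [ev2_eq, hP]
    have h1 : ((Polynomial.evalRingHom y).comp (Polynomial.mapRingHom (Polynomial.evalRingHom x))).comp
        (MvPolynomial.aeval (![Polynomial.C Polynomial.X, Polynomial.X] :
          Fin 2 → Polynomial (Polynomial ℂ)) : MvPolynomial (Fin 2) ℂ →ₐ[ℂ] Polynomial (Polynomial ℂ)).toRingHom =
        MvPolynomial.eval ![x, y] := by
      apply MvPolynomial.ringHom_ext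
      · intro r
        simp [Polynomial.algebraMap_apply]
      · intro i
        fin_cases i <;> simp
    exact congrArg (fun f => f Q) h1
  refine ⟨P, ?_, key⟩
  intro h0
  apply hQ
  apply MvPolynomial.funext
  intro v
  have h1 := key (v 0) (v 1)
  rw [h0] at h1
  have h2 : v = ![v 0, v 1] := by
    funext i
    fin_cases i <;> rfl
  rw [h2, ← h1, map_zero, ev2]
  simp

open Pool.Agent.NH23.Cross in
/-- **the theorem on pairs** -/
theorem TwoA.jind (h : TwoA U τ) (hinc : ∀ a b c d : ℚ, 0 < a * d - b * c →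
    ∃ z ∈ U, τ 1 z * (c * τ 0 z + d) ≠ a * τ 0 z + b) : FInd U (fun (m : Fin 2) z => jf (τ m z)) := by
  classical
  intro Q hQ
  by_contra hne
  choose G hG0 hG using h.alg
  obtain ⟨F, hFc, hF⟩ := exists_cf (T := Gt G ∪ (Q.coeffs : Set ℂ)) ((Gt_countable G).union (Finset.countable_toSet _))
  have hbad := h.countable hFc
  -- a ball
  have c3 := countable_fam h.conn (ι := Fin 2) (fun i => deriv (τ i)) (fun i => (h.an i).deriv)
    (fun i => deriv_ne h.op h.conn h.ne (h.an i) (h.nc i))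
  obtain ⟨z₁, hz₁, hnot⟩ := exists_notMem h.op h.ne c3
  have hd1 : ∀ i, deriv (τ i) z₁ ≠ 0 := fun i h0 => hnot ⟨hz₁, i, h0⟩
  have hB : ∀ᶠ z in 𝓝 z₁, z ∈ U ∧ deriv (τ 0) z ≠ 0 ∧ deriv (τ 1) z ≠ 0 :=
    (h.op.eventually_mem hz₁).and (((((h.an 0).deriv) z₁ hz₁).continuousAt.eventually_ne (hd1 0)).and
      ((((h.an 1).deriv) z₁ hz₁).continuousAt.eventually_ne (hd1 1)))
  obtain ⟨r, hr, hball⟩ := Metric.eventually_nhds_iff_ball.1 hB
  set B := Metric.ball z₁ r with hBd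
  have hBo : IsOpen B := Metric.isOpen_ball
  have hBc : IsPreconnected B := (convex_ball _ _).isPreconnected
  have hz₁B : z₁ ∈ B := Metric.mem_ball_self hr
  have hBU : B ⊆ U := fun z hz => (hball z hz).1
  have hSan : ∀ i : Fin 2, (∀ z ∈ B, deriv (τ i) z ≠ 0) → AnalyticOnNhd ℂ (Mob.Sf (τ i)) B := by
    intro i hi z hz
    have hld : AnalyticOnNhd ℂ (ld (τ i)) B := by
      intro w hw
      have a1 : AnalyticAt ℂ (deriv (τ i)) w := ((h.an i).deriv) w (hBU hw)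
      have a2 : AnalyticAt ℂ (deriv (deriv (τ i))) w := ((h.an i).deriv.deriv) w (hBU hw)
      exact a2.fun_div a1 (hi w hw)
    have a3 : AnalyticAt ℂ (deriv (ld (τ i))) z := (hld.deriv) z hz
    exact a3.fun_sub (((hld z hz).fun_pow 2).fun_div analyticAt_const two_ne_zero)
  have hS : ∀ z ∈ B, Mob.Sf (τ 1) z = Mob.Sf (τ 0) z := by
    by_contra hcon
    push Not at hcon
    obtain ⟨z, hz, hzne⟩ := hcon
    have c5 := countable_zeros hBc (f := fun z => Mob.Sf (τ 1) z - Mob.Sf (τ 0) z)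
      ((hSan 1 fun z hz => (hball z hz).2.2).sub (hSan 0 fun z hz => (hball z hz).2.1))
      ⟨z, hz, sub_ne_zero.2 hzne⟩
    obtain ⟨w, hw, hwn⟩ := exists_notMem hBo ⟨z₁, hz₁B⟩ (c5.union hbad)
    simp only [Set.mem_union, not_or] at hwn
    obtain ⟨w1, w2⟩ := hwn
    have g : Gp3 U τ F w := by
      by_contra hg
      exact w2 ⟨hBU hw, hg⟩
    exact w1 ⟨hw, sub_eq_zero.2 (h.sch hG0 hG hne hQ hF g)⟩
  obtain ⟨a, b, c, d, hdet, hmob⟩ := mobius hBo hBc ⟨z₁, hz₁B⟩ (fun z hz => h.an 1 z (hBU hz))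
    (fun z hz => h.an 0 z (hBU hz)) (fun z hz => (hball z hz).2.2) (fun z hz => (hball z hz).2.1) hS
  have hden : ∀ z ∈ B, c * τ 0 z + d ≠ 0 := by
    intro z hz h0
    have h1 := hmob z hz
    rw [h0, mul_zero] at h1
    apply hdet
    by_cases hc0 : c = 0
    · rw [hc0, zero_mul, zero_add] at h0
      rw [hc0, h0]
      ring
    · have h2 : c * (a * d - b * c) = 0 := by
        linear_combination (a * c) * h0 + c ^ 2 * h1
      exact (mul_eq_zero.1 h2).resolve_left hc0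
  have hmb : ∀ z ∈ B, τ 1 z = mb a b c d (τ 0 z) := by
    intro z hz
    rw [mb, eq_div_iff (hden z hz)]
    exact hmob z hz
  obtain ⟨P, hP0, hP⟩ := exists_ev2 hne
  have hrel : ∀ᶠ s in 𝓝 (τ 0 z₁), ev2 P (jf s) (jf (mb a b c d s)) = 0 := by
    have h1 : map (τ 0) (𝓝 z₁) = 𝓝 (τ 0 z₁) :=
      ((h.an 0 z₁ hz₁).hasStrictDerivAt).map_nhds_eq (hd1 0)
    rw [← h1, eventually_map]
    filter_upwards [hBo.mem_nhds hz₁B] with z hz
    rw [← hmb z hz, hP, ← hQ z (hBU hz)]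
    congr 2
    funext m
    fin_cases m <;> rfl
  obtain ⟨a', b', c', d', hpos, hall⟩ := ratl hP0 hdet (h.im 0 z₁ hz₁) (hden z₁ hz₁B) (by
    rw [← hmb z₁ hz₁B]
    exact h.im 1 z₁ hz₁) hrel
  obtain ⟨z, hz, hzne⟩ := hinc a' b' c' d' hpos
  have han : AnalyticOnNhd ℂ (fun z => τ 1 z * (c' * τ 0 z + d') - (a' * τ 0 z + b')) U := fun z hz =>
    ((h.an 1 z hz).mul ((analyticAt_const.mul (h.an 0 z hz)).add analyticAt_const)).sub
      ((analyticAt_const.mul (h.an 0 z hz)).add analyticAt_const)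
  have h0 := han.eqOn_zero_of_preconnected_of_eventuallyEq_zero h.conn hz₁ (by
    filter_upwards [hBo.mem_nhds hz₁B] with z hz
    have := hall _ (h.im 0 z (hBU hz))
    rw [← hmb z hz] at this
    rw [this, sub_self]
    rfl)
  exact hzne (sub_eq_zero.1 (h0 hz))

end Pool.Agent.NH23.Pair
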